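import Pool.Agent.Lib.MP_49fa77_co.H30.Iface

/-! MP_49fa77_co, module PW (helper93): the pointwise inequality. -/

set_option autoImplicit false

open Real Set

namespace FT58.AS.H93

/-- PW: `1 + (θ² - θ₁²) ≤ cos² θ₁ / cos² θ`. -/
theorem pw_st : PwS := by
  intro θ₁ θ h0 h1 h2
  have hc : ∀ x : ℝ, HasDerivAt (fun x : ℝ => cos x ^ 2 * (1 + (x ^ 2 - θ₁ ^ 2)))
      (2 * cos x * (x * cos x - sin x * (1 + (x ^ 2 - θ₁ ^ 2)))) x := by
    intro x
    have h3 : HasDerivAt (fun x : ℝ => cos x ^ 2) (2 * cos x * (-sin x)) x := by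
      refine ((Real.hasDerivAt_cos x).fun_pow 2).congr_deriv ?_
      norm_num
    have h4 : HasDerivAt (fun x : ℝ => 1 + (x ^ 2 - θ₁ ^ 2)) (2 * x) x := by
      refine (((hasDerivAt_pow 2 x).sub_const (θ₁ ^ 2)).const_add 1).congr_deriv ?_
      norm_num
    refine (h3.fun_mul h4).congr_deriv ?_
    ring
  have hanti : AntitoneOn (fun x : ℝ => cos x ^ 2 * (1 + (x ^ 2 - θ₁ ^ 2))) (Icc θ₁ θ) := by
    apply antitoneOn_of_deriv_nonpos (convex_Icc θ₁ θ)
    · exact fun x _ => (hc x).continuousAt.continuousWithinAt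
    · exact fun x _ => (hc x).differentiableAt.differentiableWithinAt
    · intro x hx
      rw [interior_Icc] at hx
      rw [(hc x).deriv]
      have hx0 : 0 ≤ x := h0.trans hx.1.le
      have hx1 : x < π / 2 := lt_trans hx.2 h2
      have hcx : 0 < cos x := cos_pos_of_mem_Ioo ⟨by linarith [pi_pos], hx1⟩
      have hsx : 0 ≤ sin x := sin_nonneg_of_nonneg_of_le_pi hx0 (by linarith [pi_pos])
      have h5 : x * cos x ≤ sin x := by
        have h6 := Real.le_tan hx0 hx1
        rw [Real.tan_eq_sin_div_cos, le_div_iff₀ hcx] at h6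
        exact h6
      have h7 : 0 ≤ x ^ 2 - θ₁ ^ 2 := by nlinarith [hx.1]
      have h8 : x * cos x - sin x * (1 + (x ^ 2 - θ₁ ^ 2)) ≤ 0 := by
        nlinarith [mul_nonneg hsx h7]
      have h9 : 0 ≤ 2 * cos x := by linarith
      exact mul_nonpos_of_nonneg_of_nonpos h9 h8
  have h3 := hanti (left_mem_Icc.mpr h1) (right_mem_Icc.mpr h1) h1
  have hcθ : 0 < cos θ := cos_pos_of_mem_Ioo ⟨by linarith [pi_pos], h2⟩
  rw [le_div_iff₀ (by positivity)]
  simp only [sub_self, add_zero, mul_one] at h3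
  linarith

end FT58.AS.H93
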